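import Pool.Agent.H580C.CH.All

/-!
Forms of small slack span spaces of bounded dimension (positive characteristic).
-/

set_option autoImplicit false

universe u

namespace Pool.Agent.H960Z

open MvPolynomial Pool.Agent.Chud Pool.Agent.H580C

/-- there is a nonzero form of degree `d` which vanishes to order `m` on `Z` -/
def Has {k : Type u} [Field k] {N : ℕ} (Z : Set (Fin N → k)) (d m : ℕ) : Prop :=
  ∃ F : MvPolynomial (Fin N) k, F ≠ 0 ∧ F.IsHomogeneous d ∧ ∀ v ∈ Z, F ∈ mI v ^ m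

theorem degree_le_of_hd_ne {k : Type u} [Field k] {N d : ℕ} {b : Fin N →₀ ℕ}
    {F : MvPolynomial (Fin N) k} (hF : F.IsHomogeneous d) (h : hd b F ≠ 0) : b.degree ≤ d := by
  obtain ⟨c, hc⟩ := MvPolynomial.ne_zero_iff.1 h
  rw [t_HC] at hc
  have hc' : coeff (c + b) F ≠ 0 := right_ne_zero_of_mul hc
  have := hF hc'
  have h2 : (c + b).degree = d := by
    rw [Finsupp.degree_eq_weight_one]
    exact this
  rw [map_add] at h2
  omega

/-- a special monomial in the support -/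
theorem special_monomial (k : Type u) [Field k] [IsAlgClosed k] (p e n a τ d m : ℕ) [Fact p.Prime]
    [CharP k p] (Z : Set (Fin (n + 1) → k)) (hZ : Z.Nonempty) (ha : 2 ≤ a) (hlow : LowT Z 1 a)
    (hτ : τ < p ^ e) (hd' : d + τ = (a - 2) * p ^ e + (n + 1) * (p ^ e - 1))
    (hm : n * (p ^ e - 1) ≤ m + τ) (Y : MvPolynomial (Fin (n + 1)) k) (hY : Y ≠ 0)
    (hYh : Y.IsHomogeneous d) (hYv : ∀ v ∈ Z, Y ∈ mI v ^ m) :
    ∃ x ∈ Y.support, ∀ i, x i / p ^ e ≤ a - 2 ∧ p ^ e - 1 - x i % p ^ e ≤ τ := by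
  have hp : p.Prime := Fact.out
  have hq : 0 < p ^ e := pow_pos hp.pos e
  obtain ⟨b, -, hbq, -, hbne, hbd⟩ := p_MX k p e (n + 1) Set.univ Y 0 (fun i => hq)
    (fun i hi => absurd (Set.mem_univ i) hi) (by rw [TN_hd_zero t_HC]; exact hY)
  have hBd := degree_le_of_hd_ne hYh hbne
  have hdegb : b.degree ≤ (n + 1) * (p ^ e - 1) := by
    rw [Finsupp.degree_eq_sum]
    calc ∑ i, b i ≤ ∑ _i : Fin (n + 1), (p ^ e - 1) :=
          Finset.sum_le_sum fun i _ => Nat.le_sub_one_of_lt (hbq i)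
      _ = (n + 1) * (p ^ e - 1) := by simp
  have hH := p_HH k (n + 1) b d Y hYh
  obtain ⟨c', d', G, -, hGh, hdd, hbG, hc'⟩ := t_RT k p e (n + 1) _ 0 (hd b Y) hbne hH
    (fun m hm i _ => hbd m hm i (Set.mem_univ i))
  have hc'0 := hc' hbd
  subst hc'0
  rw [pow_zero, one_mul] at hbG
  rw [zero_add] at hdd
  have hG0 : G ≠ 0 := by
    intro h
    rw [h, zero_pow hq.ne'] at hbG
    exact hbne hbG
  obtain ⟨a', rfl⟩ : ∃ a', a = a' + 2 := ⟨a - 2, by omega⟩
  have e1 : a' + 2 - 2 = a' := by omega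
  rw [e1] at hd' ⊢
  have hmu : ∀ v ∈ Z, m - b.degree ≤ p ^ e * mu v G := by
    intro v hv
    have h1 := t_HM k (n + 1) b v _ Y (hYv v hv)
    rwa [hbG, mem_mI_pow_iff v (pow_ne_zero _ hG0), ML_mu_pow v hG0] at h1
  generalize p ^ e = q at *
  obtain ⟨q', rfl⟩ : ∃ q', q = q' + 1 := ⟨q - 1, by omega⟩
  simp only [Nat.add_sub_cancel] at *
  have hsum : (q' + 1) * d' + b.degree = d := by omega
  have hd1 : d' ≤ a' := by
    by_contra hlt
    obtain ⟨j, rfl⟩ : ∃ j, d' = a' + 1 + j := ⟨d' - (a' + 1), by omega⟩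
    have hGZ : ∀ v ∈ Z, G ∈ mI v ^ (1 + j) := by
      intro v hv
      rw [mem_mI_pow_iff v hG0]
      by_contra hlt2
      have h2 : mu v G ≤ j := by omega
      have h3 : (q' + 1) * mu v G ≤ (q' + 1) * j := Nat.mul_le_mul_left _ h2
      have h4 := hmu v hv
      have h5 : m ≤ (q' + 1) * j + b.degree := by omega
      nlinarith
    have := p_LS k (n + 1) 1 (a' + 2) Z hZ le_rfl hlow j G _ hG0 hGh hGZ
    omega
  have hd2 : a' ≤ d' := by
    by_contra hlt
    have h1 : d' + 1 ≤ a' := by omega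
    have h2 : (q' + 1) * (d' + 1) ≤ (q' + 1) * a' := Nat.mul_le_mul_left _ h1
    nlinarith
  have hd3 : d' = a' := le_antisymm hd1 hd2
  subst hd3
  have hbdeg : b.degree + τ = (n + 1) * q' := by nlinarith
  obtain ⟨y, hy⟩ := MvPolynomial.ne_zero_iff.1 hbne
  have hy1 : coeff (y + b) Y ≠ 0 := by
    intro h
    apply hy
    rw [t_HC, h, mul_zero]
  have hy2 : y.degree = (q' + 1) * d' := by
    have := hH hy
    rw [Finsupp.degree_eq_weight_one, ← hdd]
    exact this
  refine ⟨y + b, mem_support_iff.2 hy1, fun i => ?_⟩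
  obtain ⟨t, ht⟩ := hbd y (mem_support_iff.2 hy) i (Set.mem_univ i)
  have hbi := hbq i
  have hyi : y i ≤ y.degree := Finsupp.le_degree i y
  rw [Finsupp.add_apply, ht]
  constructor
  · rw [add_comm, Nat.add_mul_div_left _ _ hq, Nat.div_eq_of_lt hbi, zero_add]
    rw [hy2, ht] at hyi
    exact Nat.le_of_mul_le_mul_left hyi hq
  · rw [add_comm, Nat.add_mul_mod_self_left, Nat.mod_eq_of_lt hbi]
    have h1 : b.degree ≤ b i + n * q' := by
      rw [Finsupp.degree_eq_sum, ← Finset.add_sum_erase _ _ (Finset.mem_univ i)]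
      have h2 : ∑ j ∈ Finset.univ.erase i, b j ≤ ∑ _j ∈ Finset.univ.erase i, q' :=
        Finset.sum_le_sum fun j _ => Nat.le_of_lt_succ (hbq j)
      rw [Finset.sum_const, Finset.card_erase_of_mem (Finset.mem_univ i), Finset.card_univ,
        Fintype.card_fin, Nat.add_sub_cancel, smul_eq_mul] at h2
      omega
    have h3 : (n + 1) * q' = n * q' + q' := by ring
    omega

/-- the forms of degree `d` which vanish to order `m` on `Z` -/
noncomputable def forms {k : Type u} [Field k] {N : ℕ} (Z : Set (Fin N → k)) (d m : ℕ) :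
    Submodule k (MvPolynomial (Fin N) k) :=
  homogeneousSubmodule (Fin N) k d ⊓ ⨅ v ∈ Z, (mI v ^ m).restrictScalars k

theorem mem_forms {k : Type u} [Field k] {N : ℕ} (Z : Set (Fin N → k)) (d m : ℕ)
    (F : MvPolynomial (Fin N) k) :
    F ∈ forms Z d m ↔ F.IsHomogeneous d ∧ ∀ v ∈ Z, F ∈ mI v ^ m := by
  unfold forms
  rw [Submodule.mem_inf, mem_homogeneousSubmodule]
  simp only [Submodule.mem_iInf, Submodule.restrictScalars_mem]

/-- the dimension bound at the level of a power of `p` -/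
theorem dim_bound_level (k : Type u) [Field k] [IsAlgClosed k] (p e n a τ d m : ℕ) [Fact p.Prime]
    [CharP k p] (Z : Set (Fin (n + 1) → k)) (hZ : Z.Nonempty) (ha : 2 ≤ a) (hlow : LowT Z 1 a)
    (hτ : τ < p ^ e) (hd' : d + τ = (a - 2) * p ^ e + (n + 1) * (p ^ e - 1))
    (hm : n * (p ^ e - 1) ≤ m + τ) {J : Type} [Fintype J] (F : J → MvPolynomial (Fin (n + 1)) k)
    (hF : ∀ j, F j ∈ forms Z d m) (hli : LinearIndependent k F) :
    Fintype.card J ≤ ((a - 1) * (τ + 1)) ^ n := by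
  classical
  have hp : p.Prime := Fact.out
  have hq : 0 < p ^ e := pow_pos hp.pos e
  let ex : (Fin n → Fin (a - 1) × Fin (τ + 1)) → Fin n → ℕ :=
    fun c i => p ^ e * (c i).1 + (p ^ e - 1 - (c i).2)
  let mon : (Fin n → Fin (a - 1) × Fin (τ + 1)) → (Fin (n + 1) →₀ ℕ) :=
    fun c => Finsupp.equivFunOnFinite.symm (Fin.cons (d - ∑ i, ex c i) (ex c))
  let L : MvPolynomial (Fin (n + 1)) k →ₗ[k] ((Fin n → Fin (a - 1) × Fin (τ + 1)) → k) :=
    LinearMap.pi fun c => lcoeff k (mon c)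
  have hdis : Disjoint (Submodule.span k (Set.range F)) (LinearMap.ker L) := by
    rw [Submodule.disjoint_def]
    intro Y hY hYL
    have hY' : Y ∈ forms Z d m := by
      refine (Submodule.span_le.2 ?_) hY
      rintro _ ⟨j, rfl⟩
      exact hF j
    rw [mem_forms] at hY'
    by_contra hY0
    obtain ⟨x, hx, hx2⟩ := special_monomial k p e n a τ d m Z hZ ha hlow hτ hd' hm Y hY0 hY'.1 hY'.2
    let c : Fin n → Fin (a - 1) × Fin (τ + 1) := fun i =>
      (⟨x i.succ / p ^ e, by have := (hx2 i.succ).1; omega⟩,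
        ⟨p ^ e - 1 - x i.succ % p ^ e, by have := (hx2 i.succ).2; omega⟩)
    have hex : ∀ i, ex c i = x i.succ := by
      intro i
      have h1 := Nat.div_add_mod (x i.succ) (p ^ e)
      have h2 := Nat.mod_lt (x i.succ) hq
      change p ^ e * (x i.succ / p ^ e) + (p ^ e - 1 - (p ^ e - 1 - x i.succ % p ^ e)) = x i.succ
      generalize x i.succ % p ^ e = r at *
      generalize p ^ e * (x i.succ / p ^ e) = s at *
      omega
    have hxd : x.degree = d := by
      have := hY'.1 (mem_support_iff.1 hx)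
      rw [Finsupp.degree_eq_weight_one]
      exact this
    have hmon : mon c = x := by
      ext i
      simp only [mon, Finsupp.equivFunOnFinite_symm_apply_apply]
      refine Fin.cases ?_ (fun j => ?_) i
      · rw [Fin.cons_zero]
        rw [Finsupp.degree_eq_sum, Fin.sum_univ_succ] at hxd
        simp only [hex]
        omega
      · rw [Fin.cons_succ, hex]
    have h3 := congrFun (LinearMap.mem_ker.1 hYL) c
    simp only [L, LinearMap.pi_apply, lcoeff_apply, Pi.zero_apply] at h3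
    rw [hmon] at h3
    exact mem_support_iff.1 hx h3
  have h1 := (hli.map hdis).fintype_card_le_finrank
  rw [Module.finrank_fintype_fun_eq_card, Fintype.card_fun, Fintype.card_prod, Fintype.card_fin,
    Fintype.card_fin, Fintype.card_fin] at h1
  exact h1

/-- the statement of the dimension bound -/
def DimBound (k : Type u) [Field k] : Prop :=
  ∀ (n a σ ν τ : ℕ) (Z : Finset (Fin (n + 1) → k)), Z.Nonempty → 2 ≤ a →
    LowT (Z : Set (Fin (n + 1) → k)) 1 a →
    (∀ ν', Has (Z : Set (Fin (n + 1) → k)) ((a - 1 + n) * ν' + σ) (n * ν')) →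
    ∀ {J : Type} [Fintype J] (F : J → MvPolynomial (Fin (n + 1)) k),
      (∀ j, F j ∈ forms (Z : Set (Fin (n + 1) → k)) ((a - 1 + n) * ν + τ) (n * ν)) →
      LinearIndependent k F → Fintype.card J ≤ ((a - 1) * (n * (τ + σ) + 1)) ^ n

theorem dimBound_charP (k : Type u) [Field k] [IsAlgClosed k] (p : ℕ) [Fact p.Prime] [CharP k p] :
    DimBound k := by
  intro n a σ ν τ Z hZ ha hlow hH J _ F hF hli
  have hp : p.Prime := Fact.out
  obtain ⟨e, he⟩ : ∃ e, n * (τ + σ) + ν + (τ + σ) + 1 < p ^ e :=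
    ⟨_, Nat.lt_pow_self hp.one_lt⟩
  obtain ⟨ν₂, hν₂⟩ : ∃ ν₂, p ^ e = ν₂ + ν + (τ + σ) + 1 := ⟨p ^ e - (ν + (τ + σ) + 1), by omega⟩
  obtain ⟨Y, hY0, hYh, hYv⟩ := hH ν₂
  obtain ⟨a', rfl⟩ : ∃ a', a = a' + 2 := ⟨a - 2, by omega⟩
  let W : MvPolynomial (Fin (n + 1)) k := X 0 ^ (a' + a' * (τ + σ)) * Y
  have hW0 : W ≠ 0 := mul_ne_zero (pow_ne_zero _ (X_ne_zero _)) hY0
  have hWh : W.IsHomogeneous ((a' + a' * (τ + σ)) + ((a' + 2 - 1 + n) * ν₂ + σ)) :=
    (isHomogeneous_X_pow (R := k) (0 : Fin (n + 1)) _).mul hYh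
  refine dim_bound_level k p e n (a' + 2) (n * (τ + σ))
    (((a' + a' * (τ + σ)) + ((a' + 2 - 1 + n) * ν₂ + σ)) + ((a' + 2 - 1 + n) * ν + τ))
    (n * ν₂ + n * ν) (Z : Set (Fin (n + 1) → k)) (by exact_mod_cast hZ) ha hlow (by omega) ?_ ?_
    (fun j => W * F j) ?_ ?_
  · rw [hν₂]
    have e1 : a' + 2 - 1 = a' + 1 := by omega
    have e2 : a' + 2 - 2 = a' := by omega
    rw [e1, e2, Nat.add_sub_cancel]
    ring
  · rw [hν₂, Nat.add_sub_cancel]
    apply le_of_eq
    ring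
  · intro j
    obtain ⟨h1, h2⟩ := (mem_forms _ _ _ _).1 (hF j)
    rw [mem_forms]
    refine ⟨hWh.mul h1, fun v hv => ?_⟩
    rw [pow_add]
    exact Ideal.mul_mem_mul (Ideal.mul_mem_left _ _ (hYv v hv)) (h2 v hv)
  · have := hli.map' (LinearMap.mulLeft k W) (by
      rw [LinearMap.ker_eq_bot]
      intro x y hxy
      exact mul_left_cancel₀ hW0 hxy)
    exact this

end Pool.Agent.H960Z
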