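import Pool.Agent.H960Z.DB

/-!
Prime factors of forms of small slack have bounded degree; an extremal form exists.
-/

set_option autoImplicit false

universe u

namespace Pool.Agent.H960Z

open MvPolynomial Pool.Agent.Chud Pool.Agent.H580C

theorem sum_rel {R : Type*} [CommRing R] [IsDomain R] (P A B : R) (hP : Prime P) (hA0 : A ≠ 0)
    (hA : P ∣ A) (hB : ¬ P ∣ B) (κ : ℕ) : ∀ (w : ℕ → R), (∀ i, P ∣ w i → w i = 0) →
    ∑ i ∈ Finset.range (κ + 1), w i * (A ^ i * B ^ (κ - i)) = 0 → ∀ i ≤ κ, w i = 0 := by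
  induction κ with
  | zero =>
    intro w _ h i hi
    have : i = 0 := by omega
    subst this
    simpa using h
  | succ κ ih =>
    intro w hw h
    rw [Finset.sum_range_succ'] at h
    have h1 : ∑ i ∈ Finset.range (κ + 1), w (i + 1) * (A ^ (i + 1) * B ^ (κ + 1 - (i + 1))) =
        A * ∑ i ∈ Finset.range (κ + 1), w (i + 1) * (A ^ i * B ^ (κ - i)) := by
      rw [Finset.mul_sum]
      refine Finset.sum_congr rfl fun i _ => ?_
      rw [Nat.add_sub_add_right]
      ring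
    rw [h1, pow_zero, one_mul, Nat.sub_zero] at h
    have h0 : w 0 = 0 := by
      apply hw
      have h2 : P ∣ w 0 * B ^ (κ + 1) := by
        have h3 : w 0 * B ^ (κ + 1) =
            -(A * ∑ i ∈ Finset.range (κ + 1), w (i + 1) * (A ^ i * B ^ (κ - i))) :=
          eq_neg_of_add_eq_zero_right h
        rw [h3]
        exact (dvd_neg).2 (hA.mul_right _)
      rcases hP.dvd_or_dvd h2 with h4 | h4
      · exact h4
      · exact absurd (hP.dvd_of_dvd_pow h4) hB
    rw [h0, zero_mul, add_zero] at h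
    have h5 := ih (fun i => w (i + 1)) (fun i => hw (i + 1)) ((mul_eq_zero.1 h).resolve_left hA0)
    intro i hi
    rcases i with _ | i
    · exact h0
    · exact h5 i (by omega)

/-- the monomial of degree `n r` with the given exponents of `x_1, …, x_n` -/
noncomputable def boxMon (n r : ℕ) (c : Fin n → Fin (r + 1)) : Fin (n + 1) →₀ ℕ :=
  Finsupp.equivFunOnFinite.symm (Fin.cons (n * r - ∑ i, (c i : ℕ)) (fun i => (c i : ℕ)))

theorem boxMon_degree (n r : ℕ) (c : Fin n → Fin (r + 1)) : (boxMon n r c).degree = n * r := by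
  rw [Finsupp.degree_eq_sum, Fin.sum_univ_succ]
  simp only [boxMon, Finsupp.equivFunOnFinite_symm_apply_apply, Fin.cons_zero, Fin.cons_succ]
  have h : ∑ i, (c i : ℕ) ≤ ∑ _i : Fin n, r :=
    Finset.sum_le_sum fun i _ => Nat.le_of_lt_succ (c i).2
  rw [Finset.sum_const, Finset.card_univ, Fintype.card_fin, smul_eq_mul] at h
  omega

theorem boxMon_injective (n r : ℕ) : Function.Injective (boxMon n r) := by
  intro c c' h
  funext i
  have := DFunLike.congr_fun h i.succ
  simp only [boxMon, Finsupp.equivFunOnFinite_symm_apply_apply, Fin.cons_succ] at this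
  exact Fin.ext this

/-- prime factors in which two forms of small slack differ have bounded degree -/
theorem factor_bound {k : Type u} [Field k] (hDB : DimBound k) (n a σ τ : ℕ) (hn : 1 ≤ n)
    (Z : Finset (Fin (n + 1) → k)) (hZ : Z.Nonempty) (ha : 2 ≤ a)
    (hlow : LowT (Z : Set (Fin (n + 1) → k)) 1 a)
    (hH : ∀ ν', Has (Z : Set (Fin (n + 1) → k)) ((a - 1 + n) * ν' + σ) (n * ν')) :
    ∃ D : ℕ, ∀ (ν : ℕ) (A B P : MvPolynomial (Fin (n + 1)) k), A ≠ 0 →
      A ∈ forms (Z : Set (Fin (n + 1) → k)) ((a - 1 + n) * ν + τ) (n * ν) →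
      B ∈ forms (Z : Set (Fin (n + 1) → k)) ((a - 1 + n) * ν + τ) (n * ν) →
      Prime P → P ∣ A → ¬ P ∣ B → P.totalDegree ≤ D := by
  classical
  set κ := ((a - 1) * (n * (n + 1))) ^ n with hκ
  set r := κ * τ + σ with hr
  refine ⟨n * r, fun ν A B P hA0 hA hB hP hPA hPB => ?_⟩
  by_contra hlt
  rw [not_le] at hlt
  obtain ⟨hAh, hAv⟩ := (mem_forms _ _ _ _).1 hA
  obtain ⟨hBh, hBv⟩ := (mem_forms _ _ _ _).1 hB
  let F : Fin (κ + 1) × (Fin n → Fin (r + 1)) → MvPolynomial (Fin (n + 1)) k :=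
    fun j => monomial (boxMon n r j.2) 1 * (A ^ (j.1 : ℕ) * B ^ (κ - j.1))
  have hF : ∀ j, F j ∈ forms (Z : Set (Fin (n + 1) → k))
      ((a - 1 + n) * (κ * ν) + (κ * τ + n * r)) (n * (κ * ν)) := by
    rintro ⟨i, c⟩
    obtain ⟨i', hi'⟩ : ∃ i', κ = i + i' := ⟨κ - i, by have := i.2; omega⟩
    have e1 : κ - i = i' := by omega
    rw [mem_forms]
    simp only [F, e1]
    constructor
    · have h1 : (monomial (boxMon n r c) (1 : k)).IsHomogeneous (n * r) :=
        isHomogeneous_monomial _ (boxMon_degree n r c)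
      have h2 := h1.mul ((hAh.pow i).mul (hBh.pow i'))
      have e2 : n * r + (((a - 1 + n) * ν + τ) * i + ((a - 1 + n) * ν + τ) * i') =
          (a - 1 + n) * (κ * ν) + (κ * τ + n * r) := by
        generalize (i : ℕ) = i₀ at hi' ⊢
        generalize r = r₀
        rw [hi']
        ring
      rwa [e2] at h2
    · intro v hv
      refine Ideal.mul_mem_left _ _ ?_
      have h1 := Ideal.mul_mem_mul (Ideal.pow_mem_pow (hAv v hv) i) (Ideal.pow_mem_pow (hBv v hv) i')
      rw [← pow_mul, ← pow_mul, ← pow_add] at h1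
      have e2 : n * ν * i + n * ν * i' = n * (κ * ν) := by
        generalize (i : ℕ) = i₀ at hi' ⊢
        rw [hi']
        ring
      rwa [e2] at h1
  have hli : LinearIndependent k F := by
    rw [Fintype.linearIndependent_iff]
    intro g hg
    let w : ℕ → MvPolynomial (Fin (n + 1)) k := fun i =>
      if h : i < κ + 1 then ∑ c, monomial (boxMon n r c) (g (⟨i, h⟩, c)) else 0
    have hw : ∀ i, P ∣ w i → w i = 0 := by
      intro i hi
      by_contra h0
      have h1 := totalDegree_le_of_dvd_of_isDomain hi h0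
      have h2 : (w i).totalDegree ≤ n * r := by
        simp only [w]
        split_ifs with h
        · apply IsHomogeneous.totalDegree_le
          exact IsHomogeneous.sum _ _ _ fun c _ => isHomogeneous_monomial _ (boxMon_degree n r c)
        · rw [totalDegree_zero]
          exact Nat.zero_le _
      omega
    have hsum : ∑ i ∈ Finset.range (κ + 1), w i * (A ^ i * B ^ (κ - i)) = 0 := by
      rw [← hg, Fintype.sum_prod_type, Finset.sum_range]
      refine Finset.sum_congr rfl fun i _ => ?_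
      simp only [w, F, dif_pos i.2]
      rw [Finset.sum_mul]
      refine Finset.sum_congr rfl fun c _ => ?_
      rw [← smul_mul_assoc, smul_monomial, smul_eq_mul, mul_one]
    have h0 := sum_rel P A B hP hA0 hPA hPB κ w hw hsum
    rintro ⟨i, c⟩
    have h1 := h0 i (Nat.le_of_lt_succ i.2)
    simp only [w, dif_pos i.2] at h1
    have h2 := congrArg (coeff (boxMon n r c)) h1
    rw [coeff_sum, coeff_zero, Finset.sum_eq_single c] at h2
    · rwa [coeff_monomial, if_pos rfl] at h2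
    · intro c' _ hc'
      rw [coeff_monomial, if_neg (fun h => hc' (boxMon_injective n r h))]
    · intro h
      exact absurd (Finset.mem_univ c) h
  have hb := hDB n a σ (κ * ν) (κ * τ + n * r) Z hZ ha hlow hH F hF hli
  rw [Fintype.card_prod, Fintype.card_fin, Fintype.card_fun, Fintype.card_fin,
    Fintype.card_fin] at hb
  have h1 : (a - 1) * (n * (κ * τ + n * r + σ) + 1) ≤ ((a - 1) * (n * (n + 1))) * (r + 1) := by
    rw [mul_assoc]
    apply Nat.mul_le_mul_left
    have e1 : κ * τ + n * r + σ = (n + 1) * r := by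
      rw [add_mul, one_mul]
      omega
    rw [e1]
    nlinarith
  have h2 := hb.trans (Nat.pow_le_pow_left h1 n)
  rw [mul_pow, ← hκ] at h2
  have h3 := Nat.le_of_mul_le_mul_right h2 (pow_pos (Nat.succ_pos r) n)
  omega

/-- forms of small slack all of whose prime factors have bounded degree -/
theorem bounded_factors {k : Type u} [Field k] (hDB : DimBound k) (n a σ : ℕ) (hn : 1 ≤ n)
    (Z : Finset (Fin (n + 1) → k)) (hZ : Z.Nonempty) (ha : 2 ≤ a)
    (hlow : LowT (Z : Set (Fin (n + 1) → k)) 1 a)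
    (hH : ∀ ν', Has (Z : Set (Fin (n + 1) → k)) ((a - 1 + n) * ν' + σ) (n * ν')) :
    ∃ D : ℕ, ∀ ν : ℕ, ∃ Y : MvPolynomial (Fin (n + 1)) k, Y ≠ 0 ∧
      Y.IsHomogeneous ((a - 1 + n) * ν + σ) ∧ (∀ v ∈ Z, Y ∈ mI v ^ (n * ν)) ∧
      ∀ P : MvPolynomial (Fin (n + 1)) k, Prime P → P ∣ Y → P.totalDegree ≤ D := by
  obtain ⟨D, hD⟩ := factor_bound hDB n a σ (σ + σ) hn Z hZ ha hlow hH
  choose Y hY0 hYh hYv using hH
  refine ⟨D + ((a - 1 + n) * 1 + σ), fun ν => ⟨Y ν, hY0 ν, hYh ν, hYv ν, ?_⟩⟩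
  induction ν with
  | zero =>
    intro P _ hPY
    have h1 := totalDegree_le_of_dvd_of_isDomain hPY (hY0 0)
    have h2 := (hYh 0).totalDegree_le
    omega
  | succ ν ih =>
    intro P hP hPY
    by_cases hPB : P ∣ Y ν * Y 1
    · rcases hP.dvd_or_dvd hPB with h | h
      · exact ih P hP h
      · have h1 := totalDegree_le_of_dvd_of_isDomain h (hY0 1)
        have h2 := (hYh 1).totalDegree_le
        omega
    · have h1 := hD (ν + 1) (X 0 ^ σ * Y (ν + 1)) (Y ν * Y 1) P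
        (mul_ne_zero (pow_ne_zero _ (X_ne_zero _)) (hY0 _)) (by
          rw [mem_forms]
          refine ⟨?_, fun v hv => Ideal.mul_mem_left _ _ (hYv _ v hv)⟩
          have := (isHomogeneous_X_pow (R := k) (0 : Fin (n + 1)) σ).mul (hYh (ν + 1))
          have e : σ + ((a - 1 + n) * (ν + 1) + σ) = (a - 1 + n) * (ν + 1) + (σ + σ) := by ring
          rwa [e] at this) (by
          rw [mem_forms]
          constructor
          · have := (hYh ν).mul (hYh 1)
            have e : (a - 1 + n) * ν + σ + ((a - 1 + n) * 1 + σ) =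
                (a - 1 + n) * (ν + 1) + (σ + σ) := by ring
            rwa [e] at this
          · intro v hv
            have := Ideal.mul_mem_mul (hYv ν v hv) (hYv 1 v hv)
            rwa [← pow_add, ← mul_add] at this) hP (hPY.mul_left _) hPB
      omega

/-- the numerical types of the forms of degree at most `D` -/
abbrev Typ {k : Type u} [Field k] {N : ℕ} (Z : Finset (Fin N → k)) (D : ℕ) : Type u :=
  {t : Fin (D + 1) × (Z → Fin (D + 1)) // ∃ G : MvPolynomial (Fin N) k, G ≠ 0 ∧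
    G.IsHomogeneous t.1 ∧ ∀ v : Z, G ∈ mI v.1 ^ (t.2 v : ℕ)}

theorem decompose {k : Type u} [Field k] {N : ℕ} (Z : Finset (Fin N → k)) (D : ℕ)
    [Fintype (Typ Z D)] (F : MvPolynomial (Fin N) k) : ∀ d : ℕ, F ≠ 0 → F.IsHomogeneous d →
    (∀ P : MvPolynomial (Fin N) k, Prime P → P ∣ F → P.totalDegree ≤ D) →
    ∃ c : Typ Z D → ℕ, ∑ t, c t * (t.1.1 : ℕ) = d ∧
      ∀ v : Z, mu v.1 F ≤ ∑ t, c t * (t.1.2 v : ℕ) := by
  classical
  induction F using UniqueFactorizationMonoid.induction_on_prime with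
  | h₁ => intro d h; exact absurd rfl h
  | h₂ x hx =>
    intro d h0 hh _
    have h1 : x.totalDegree = 0 := (isUnit_iff_totalDegree_of_isReduced.1 hx).2
    have h2 := hh.totalDegree h0
    refine ⟨0, by simp; omega, fun v => ?_⟩
    have := mu_le_totalDegree v.1 h0
    omega
  | h₃ G P hG0 hP ih =>
    intro d h0 hh hfac
    have hPh := homog_of_dvd hh h0 (Dvd.intro _ rfl : P ∣ P * G)
    have hGh := homog_of_dvd hh h0 (Dvd.intro_left _ rfl : G ∣ P * G)
    have hd : P.totalDegree + G.totalDegree = d := (hPh.mul hGh).inj_right hh h0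
    obtain ⟨c, hc1, hc2⟩ := ih _ hG0 hGh (fun Q hQ hQG => hfac Q hQ (hQG.mul_left _))
    have hPD := hfac P hP (Dvd.intro _ rfl)
    let t₀ : Typ Z D := ⟨(⟨P.totalDegree, by omega⟩, fun v => ⟨mu v.1 P, by
      have := mu_le_totalDegree v.1 hP.ne_zero
      omega⟩), P, hP.ne_zero, hPh, fun v => (mem_mI_pow_iff v.1 hP.ne_zero _).2 le_rfl⟩
    have hs : ∀ w : Typ Z D → ℕ, ∑ t, (c + Pi.single t₀ 1 : Typ Z D → ℕ) t * w t =
        ∑ t, c t * w t + w t₀ := by
      intro w
      simp only [Pi.add_apply, add_mul, Finset.sum_add_distrib]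
      congr 1
      rw [Finset.sum_eq_single t₀]
      · rw [Pi.single_eq_same, one_mul]
      · intro t _ ht
        rw [Pi.single_eq_of_ne ht, zero_mul]
      · intro h
        exact absurd (Finset.mem_univ _) h
    refine ⟨c + Pi.single t₀ 1, ?_, fun v => ?_⟩
    · rw [hs (fun t => (t.1.1 : ℕ)), hc1]
      change G.totalDegree + P.totalDegree = d
      omega
    · rw [hs (fun t => (t.1.2 v : ℕ)), mu_mul v.1 hP.ne_zero hG0]
      change _ ≤ _ + mu v.1 P
      have := hc2 v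
      omega

theorem compose {k : Type u} [Field k] {N : ℕ} (Z : Finset (Fin N → k)) (D : ℕ)
    [Fintype (Typ Z D)] (c : Typ Z D → ℕ) :
    ∃ G : MvPolynomial (Fin N) k, G ≠ 0 ∧ G.IsHomogeneous (∑ t, c t * (t.1.1 : ℕ)) ∧
      ∀ v : Z, G ∈ mI v.1 ^ (∑ t, c t * (t.1.2 v : ℕ)) := by
  have hG : ∀ t : Typ Z D, ∃ G : MvPolynomial (Fin N) k, G ≠ 0 ∧
    G.IsHomogeneous t.1.1 ∧ ∀ v : Z, G ∈ mI v.1 ^ (t.1.2 v : ℕ) := fun t => t.2
  choose G hG0 hGh hGv using hG
  refine ⟨∏ t, G t ^ c t, Finset.prod_ne_zero_iff.2 fun t _ => pow_ne_zero _ (hG0 t), ?_, ?_⟩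
  · refine IsHomogeneous.prod _ _ _ fun t _ => ?_
    rw [mul_comm]
    exact (hGh t).pow _
  · intro v
    rw [← Finset.prod_pow_eq_pow_sum]
    refine Ideal.prod_mem_prod fun t _ => ?_
    rw [mul_comm, pow_mul]
    exact Ideal.pow_mem_pow (hGv t v) _

/-- an extremal form -/
theorem extremal {k : Type u} [Field k] (hDB : DimBound k) (n a σ : ℕ) (hn : 1 ≤ n)
    (Z : Finset (Fin (n + 1) → k)) (hZ : Z.Nonempty) (ha : 2 ≤ a)
    (hlow : LowT (Z : Set (Fin (n + 1) → k)) 1 a)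
    (hH : ∀ ν', Has (Z : Set (Fin (n + 1) → k)) ((a - 1 + n) * ν' + σ) (n * ν')) :
    ∃ ν, 1 ≤ ν ∧ Has (Z : Set (Fin (n + 1) → k)) ((a - 1 + n) * ν) (n * ν) := by
  classical
  obtain ⟨D, hD⟩ := bounded_factors hDB n a σ hn Z hZ ha hlow hH
  haveI : Fintype (Typ Z D) := Fintype.ofFinite _
  have h1 : ∀ ν : ℕ, ∃ c : Typ Z D → ℕ, ∑ t, c t * (t.1.1 : ℕ) = (a - 1 + n) * ν + σ ∧
      ∀ v : Z, n * ν ≤ ∑ t, c t * (t.1.2 v : ℕ) := by
    intro ν
    obtain ⟨Y, hY0, hYh, hYv, hYf⟩ := hD ν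
    obtain ⟨c, hc1, hc2⟩ := decompose Z D Y _ hY0 hYh hYf
    exact ⟨c, hc1, fun v => ((mem_mI_pow_iff v.1 hY0 _).1 (hYv v.1 v.2)).trans (hc2 v)⟩
  choose c hc1 hc2 using h1
  let f : ℕ → (Typ Z D → ℕ) × (Z → ℕ) := fun ν =>
    (c ν, fun v => ∑ t, c ν t * (t.1.2 v : ℕ) - n * ν)
  obtain ⟨i, j, hij, hle⟩ := wellQuasiOrdered_le f
  obtain ⟨hle1, hle2⟩ := hle
  obtain ⟨ν, rfl⟩ : ∃ ν, j = i + ν := ⟨j - i, by omega⟩
  have hc : ∀ t, c (i + ν) t = c i t + (c (i + ν) t - c i t) := by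
    intro t
    have : c i t ≤ c (i + ν) t := hle1 t
    omega
  obtain ⟨G, hG0, hGh, hGv⟩ := compose Z D (fun t => c (i + ν) t - c i t)
  have hsum : ∀ w : Typ Z D → ℕ, ∑ t, c (i + ν) t * w t =
      ∑ t, c i t * w t + ∑ t, (c (i + ν) t - c i t) * w t := by
    intro w
    rw [← Finset.sum_add_distrib]
    refine Finset.sum_congr rfl fun t _ => ?_
    rw [← add_mul, ← hc t]
  refine ⟨ν, by omega, G, hG0, ?_, fun v hv => ?_⟩
  · have h2 := hsum (fun t => (t.1.1 : ℕ))
    rw [hc1, hc1, mul_add] at h2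
    have h3 : ∑ t, (c (i + ν) t - c i t) * (t.1.1 : ℕ) = (a - 1 + n) * ν := by omega
    rwa [h3] at hGh
  · refine Ideal.pow_le_pow_right ?_ (hGv ⟨v, hv⟩)
    have h2 := hsum (fun t => (t.1.2 ⟨v, hv⟩ : ℕ))
    have h3 : ∑ t, c i t * (t.1.2 ⟨v, hv⟩ : ℕ) - n * i ≤
        ∑ t, c (i + ν) t * (t.1.2 ⟨v, hv⟩ : ℕ) - n * (i + ν) := hle2 ⟨v, hv⟩
    have h4 := hc2 i ⟨v, hv⟩
    have h5 := hc2 (i + ν) ⟨v, hv⟩
    rw [mul_add] at h3 h5
    omega

end Pool.Agent.H960Z
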