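import Pool.Agent.H960Z.DB

/-!
The dimension bound in characteristic zero, by specialisation along a place.
-/

set_option autoImplicit false

universe u

namespace Pool.Agent.H960Z

open MvPolynomial Pool.Agent.Chud Pool.Agent.H580C

/-- a place with values in a field of positive characteristic -/
theorem exists_place (K : Type u) [Field K] [CharZero K] (T : Finset K) :
    ∃ (p : ℕ) (_ : Fact p.Prime) (k : Type u) (_ : Field k) (_ : IsAlgClosed k) (_ : CharP k p)
      (A : Subring K) (_ : A →+* k), (∀ x ∈ T, x ∈ A) ∧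
      ∀ s : Finset K, (∃ x ∈ s, x ≠ 0) → ∃ x₀ ∈ s, x₀ ≠ 0 ∧ ∀ x ∈ s, x₀⁻¹ * x ∈ A := by
  obtain ⟨p, hp, k, ik, ia, ic, -, ⟨φ⟩⟩ := t_RD K T 0
  set A : Subring K := (Algebra.adjoin ℤ (T : Set K)).toSubring with hA
  have hTA : ∀ x ∈ T, x ∈ A := fun x hx => Algebra.subset_adjoin hx
  set ψ : A →+* k := φ.comp (A.subtype.codRestrict (Algebra.adjoin ℤ (T : Set K))
    (fun x => x.2)) with hψ
  obtain ⟨B, hAB, hI⟩ := Ideal.image_subset_nonunits_valuationSubring (RingHom.ker ψ)
    (RingHom.ker_ne_top ψ)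
  have hpB : ((p : B) : K) ∈ B.nonunits := by
    apply hI
    refine ⟨(p : A), ?_, ?_⟩
    · change (p : A) ∈ RingHom.ker ψ
      rw [RingHom.mem_ker, map_natCast]
      exact CharP.cast_eq_zero k p
    · rw [map_natCast]
      exact (map_natCast B.subtype p).symm
  rw [ValuationSubring.coe_mem_nonunits_iff] at hpB
  have hc : CharP (IsLocalRing.ResidueField B) p := by
    rw [CharP.charP_iff_prime_eq_zero hp.out, ← map_natCast (IsLocalRing.residue B)]
    exact (IsLocalRing.residue_eq_zero_iff _).2 hpB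
  refine ⟨p, hp, AlgebraicClosure (IsLocalRing.ResidueField B), inferInstance, inferInstance,
    inferInstance, B.toSubring,
    (algebraMap (IsLocalRing.ResidueField B) _).comp (IsLocalRing.residue B),
    fun x hx => hAB (hTA x hx), ?_⟩
  rintro s ⟨x, hx, hx0⟩
  obtain ⟨x₀, hx₀, hmax⟩ := s.exists_max_image B.valuation ⟨x, hx⟩
  have h0 : x₀ ≠ 0 := by
    intro h
    have h1 := hmax x hx
    rw [h, map_zero, le_zero_iff, Valuation.zero_iff] at h1
    exact hx0 h1
  refine ⟨x₀, hx₀, h0, fun y hy => ?_⟩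
  obtain ⟨b, hb⟩ := (B.valuation_le_iff y x₀).1 (hmax y hy)
  have : x₀⁻¹ * y = b := by
    rw [← hb]
    field_simp
  rw [this]
  exact b.2

theorem exists_lift {K : Type u} [Field K] {σ : Type*} (A : Subring K) (F : MvPolynomial σ K)
    (hFA : ∀ m, coeff m F ∈ A) : ∃ FA : MvPolynomial σ A, map A.subtype FA = F := by
  refine ⟨∑ m ∈ F.support, monomial m ⟨coeff m F, hFA m⟩, ?_⟩
  rw [map_sum]
  conv_rhs => rw [← support_sum_monomial_coeff F]
  apply Finset.sum_congr rfl
  intro m _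
  rw [map_monomial]
  rfl

theorem homog_red {K k : Type u} [Field K] [Field k] {σ : Type*} (A : Subring K) (φ : A →+* k)
    (FA : MvPolynomial σ A) (d : ℕ) (h : (map A.subtype FA).IsHomogeneous d) :
    (map φ FA).IsHomogeneous d := by
  apply IsHomogeneous.map
  intro m hm
  apply h
  rw [coeff_map]
  intro h0
  exact hm (Subtype.ext h0)

theorem mult_red {K k : Type u} [Field K] [Field k] {σ : Type*} (A : Subring K) (φ : A →+* k)
    (FA : MvPolynomial σ A) (v : σ → A) (m : ℕ)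
    (h : map A.subtype FA ∈ mI (fun i => A.subtype (v i)) ^ m) :
    map φ FA ∈ mI (fun i => φ (v i)) ^ m := by
  rw [MT.mem_iff] at h ⊢
  intro x hx
  have h1 := h x hx
  rw [← MT.map_transA, coeff_map] at h1
  have h2 : coeff x (MT.transA v FA) = 0 := Subtype.ext h1
  rw [← MT.map_transA, coeff_map, h2, map_zero]

theorem low_red {K k : Type u} [Field K] [Field k] (n t a : ℕ) (Z : Finset (Fin (n + 1) → K))
    (A : Subring K) (ψ : A →+* k)
    (lam : ℕ → (Fin (n + 1) →₀ ℕ) → (Fin (n + 1) → K) → (Fin (n + 1) →₀ ℕ) → K)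
    (hlam : ∀ d < a, ∀ m m' : Fin (n + 1) →₀ ℕ, m.degree = d → m'.degree = d →
      ∑ v ∈ Z, ∑ b ∈ bx (n + 1) t,
        lam d m v b * (((∏ i, (m' i).choose (b i) : ℕ) : K) * ∏ i, v i ^ (m' i - b i)) =
      if m = m' then 1 else 0)
    (m1 : ∀ d < a, ∀ m : Fin (n + 1) →₀ ℕ, m.degree = d → ∀ v ∈ Z, ∀ b ∈ bx (n + 1) t,
      lam d m v b ∈ A) (m2 : ∀ v ∈ Z, ∀ i, v i ∈ A) (Z' : Set (Fin (n + 1) → k))
    (hZ' : ∀ v, ∀ hv : v ∈ Z, (fun i => ψ ⟨v i, m2 v hv i⟩) ∈ Z') : LowT Z' t a := by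
  classical
  intro G d' hG0 hG hv
  by_contra hlt
  push Not at hlt
  apply hG0
  ext m
  rw [coeff_zero]
  by_cases hm : m.degree = d'
  swap
  · exact hG.coeff_eq_zero hm
  have key : ∀ m' : Fin (n + 1) →₀ ℕ, m'.degree = d' →
      ∑ v ∈ Z.attach, ∑ b ∈ (bx (n + 1) t).attach,
        ψ ⟨lam d' m v.1 b.1, m1 d' hlt m hm v.1 v.2 b.1 b.2⟩ *
          (((∏ i, (m' i).choose (b.1 i) : ℕ) : k) *
            ∏ i, ψ ⟨v.1 i, m2 v.1 v.2 i⟩ ^ (m' i - b.1 i)) =
      if m = m' then 1 else 0 := by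
    intro m' hm'
    have h := hlam d' hlt m m' hm hm'
    have hA' : ∑ v ∈ Z.attach, ∑ b ∈ (bx (n + 1) t).attach,
        (⟨lam d' m v.1 b.1, m1 d' hlt m hm v.1 v.2 b.1 b.2⟩ : A) *
          (((∏ i, (m' i).choose (b.1 i) : ℕ) : A) *
            ∏ i, (⟨v.1 i, m2 v.1 v.2 i⟩ : A) ^ (m' i - b.1 i)) =
        if m = m' then 1 else 0 := by
      apply Subtype.ext
      have e1 : ((if m = m' then 1 else 0 : A) : K) = if m = m' then 1 else 0 := by
        split_ifs <;> rfl
      rw [e1, ← h]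
      rw [← Finset.sum_attach Z]
      push_cast
      refine Finset.sum_congr rfl fun v _ => ?_
      rw [← Finset.sum_attach (bx (n + 1) t)]
    have h3 := congrArg ψ hA'
    rw [map_sum] at h3
    have e2 : ψ (if m = m' then 1 else 0) = if m = m' then 1 else 0 := by
      split_ifs
      · exact map_one ψ
      · exact map_zero ψ
    rw [e2] at h3
    rw [← h3]
    refine Finset.sum_congr rfl fun v _ => ?_
    rw [map_sum]
    refine Finset.sum_congr rfl fun b _ => ?_
    rw [map_mul, map_mul, map_natCast, map_prod]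
    simp only [map_pow]
  have hsum : coeff m G = ∑ m' ∈ (Finset.univ : Finset (Fin (n + 1))).finsuppAntidiag d',
      (if m = m' then 1 else 0) * coeff m' G := by
    rw [Finset.sum_eq_single m]
    · rw [if_pos rfl, one_mul]
    · intro m' _ hne
      rw [if_neg (Ne.symm hne), zero_mul]
    · intro h
      exact absurd ((TR_mem_anti _ _).2 hm) h
  rw [hsum]
  have h4 : ∀ m' ∈ (Finset.univ : Finset (Fin (n + 1))).finsuppAntidiag d',
      ((if m = m' then 1 else 0 : k)) * coeff m' G =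
      ∑ v ∈ Z.attach, ∑ b ∈ (bx (n + 1) t).attach,
        ψ ⟨lam d' m v.1 b.1, m1 d' hlt m hm v.1 v.2 b.1 b.2⟩ *
          ((((∏ i, (m' i).choose (b.1 i) : ℕ) : k) *
            ∏ i, ψ ⟨v.1 i, m2 v.1 v.2 i⟩ ^ (m' i - b.1 i)) * coeff m' G) := by
    intro m' hm'
    rw [← key m' ((TR_mem_anti _ _).1 hm'), Finset.sum_mul]
    refine Finset.sum_congr rfl fun v _ => ?_
    rw [Finset.sum_mul]
    refine Finset.sum_congr rfl fun b _ => ?_
    rw [mul_assoc]
  rw [Finset.sum_congr rfl h4, Finset.sum_comm]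
  refine Finset.sum_eq_zero fun v _ => ?_
  rw [Finset.sum_comm]
  refine Finset.sum_eq_zero fun b _ => ?_
  rw [← Finset.mul_sum]
  have h5 := TR_eval_hd t_HC k (n + 1) b.1 (fun i => ψ ⟨v.1 i, m2 v.1 v.2 i⟩) G d' hG
  rw [← h5]
  have h6 := ((t_HV k (n + 1) (fun i => ψ ⟨v.1 i, m2 v.1 v.2 i⟩) G).2 t).1 (hv _ (hZ' v.1 v.2)) b.1
    ((TR_mem_bx _ _).1 b.2)
  rw [h6, mul_zero]

/-- a left inverse for the coefficient matrix of a linearly independent family -/
theorem exists_left_inv {K : Type u} [Field K] {σ : Type*} {J : Type} [Fintype J] [DecidableEq J]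
    (F : J → MvPolynomial σ K) (hli : LinearIndependent K F) :
    ∃ (M : Finset (σ →₀ ℕ)) (l : J → (σ →₀ ℕ) → K), ∀ j j',
      ∑ m ∈ M, l j m * coeff m (F j') = if j = j' then 1 else 0 := by
  classical
  have hinj : LinearMap.ker (Fintype.linearCombination K F) = ⊥ := by
    rw [LinearMap.ker_eq_bot']
    intro g hg
    rw [Fintype.linearCombination_apply] at hg
    funext j
    exact Fintype.linearIndependent_iff.1 hli g hg j
  obtain ⟨L, hL⟩ := LinearMap.exists_leftInverse_of_injective _ hinj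
  refine ⟨Finset.univ.biUnion fun j => (F j).support, fun j m => L (monomial m 1) j, ?_⟩
  intro j j'
  have h1 : L (F j') = Pi.single j' 1 := by
    have := LinearMap.congr_fun hL (Pi.single j' 1)
    rwa [LinearMap.comp_apply, Fintype.linearCombination_apply_single, one_smul,
      LinearMap.id_apply] at this
  have h2 : F j' = ∑ m ∈ Finset.univ.biUnion (fun j => (F j).support),
      coeff m (F j') • monomial m (1 : K) := by
    conv_lhs => rw [(F j').as_sum]
    refine Finset.sum_subset_zero_on_sdiff ?_ ?_ ?_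
    · intro m hm
      exact Finset.mem_biUnion.2 ⟨j', Finset.mem_univ _, hm⟩
    · intro m hm
      rw [notMem_support_iff.1 (Finset.mem_sdiff.1 hm).2, zero_smul]
    · intro m _
      rw [smul_monomial, smul_eq_mul, mul_one]
  have h3 := congrFun h1 j
  rw [h2, map_sum, Finset.sum_apply, Pi.single_apply] at h3
  rw [← h3]
  refine Finset.sum_congr rfl fun m _ => ?_
  rw [map_smul, Pi.smul_apply, smul_eq_mul, mul_comm]

theorem dimBound_charZero (K : Type u) [Field K] [CharZero K] : DimBound K := by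
  classical
  intro n a σ ν τ Z hZ ha hlow hH J _ F hF hli
  choose! lam hlam using p_TI K n 1 a Z hlow
  obtain ⟨M, l, hl⟩ := exists_left_inv F hli
  set T : Finset K := ((Finset.range a).biUnion fun d =>
      ((Finset.univ : Finset (Fin (n + 1))).finsuppAntidiag d).biUnion fun m =>
        Z.biUnion fun v => (bx (n + 1) 1).image fun b => lam d m v b) ∪
      ((Z.biUnion fun v => (Finset.univ : Finset (Fin (n + 1))).image fun i => v i) ∪
      (((Finset.univ : Finset J).biUnion fun j => (F j).support.image fun m => coeff m (F j)) ∪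
      ((Finset.univ : Finset J).biUnion fun j => M.image fun m => l j m))) with hT
  obtain ⟨p, hp, k, ik, ia, ic, A, ψ, hTA, hval⟩ := exists_place K T
  have m1 : ∀ d < a, ∀ m : Fin (n + 1) →₀ ℕ, m.degree = d → ∀ v ∈ Z, ∀ b ∈ bx (n + 1) 1,
      lam d m v b ∈ A := by
    intro d hd m hm v hv b hb
    apply hTA
    rw [hT]
    refine Finset.mem_union_left _ (Finset.mem_biUnion.2 ⟨d, Finset.mem_range.2 hd, ?_⟩)
    refine Finset.mem_biUnion.2 ⟨m, (TR_mem_anti _ _).2 hm, ?_⟩
    exact Finset.mem_biUnion.2 ⟨v, hv, Finset.mem_image.2 ⟨b, hb, rfl⟩⟩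
  have m2 : ∀ v ∈ Z, ∀ i, v i ∈ A := by
    intro v hv i
    apply hTA
    rw [hT]
    refine Finset.mem_union_right _ (Finset.mem_union_left _ ?_)
    exact Finset.mem_biUnion.2 ⟨v, hv, Finset.mem_image.2 ⟨i, Finset.mem_univ _, rfl⟩⟩
  have m3 : ∀ j m, coeff m (F j) ∈ A := by
    intro j m
    by_cases hm : m ∈ (F j).support
    · apply hTA
      rw [hT]
      refine Finset.mem_union_right _ (Finset.mem_union_right _ (Finset.mem_union_left _ ?_))
      exact Finset.mem_biUnion.2 ⟨j, Finset.mem_univ _, Finset.mem_image.2 ⟨m, hm, rfl⟩⟩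
    · rw [notMem_support_iff.1 hm]
      exact A.zero_mem
  have m4 : ∀ j, ∀ m ∈ M, l j m ∈ A := by
    intro j m hm
    apply hTA
    rw [hT]
    refine Finset.mem_union_right _ (Finset.mem_union_right _ (Finset.mem_union_right _ ?_))
    exact Finset.mem_biUnion.2 ⟨j, Finset.mem_univ _, Finset.mem_image.2 ⟨m, hm, rfl⟩⟩
  let Z' : Finset (Fin (n + 1) → k) := Z.attach.image fun v => fun i => ψ ⟨v.1 i, m2 v.1 v.2 i⟩
  have hZ'mem : ∀ v, ∀ hv : v ∈ Z, (fun i => ψ ⟨v i, m2 v hv i⟩) ∈ Z' :=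
    fun v hv => Finset.mem_image.2 ⟨⟨v, hv⟩, Finset.mem_attach _ _, rfl⟩
  have hred : ∀ (G : MvPolynomial (Fin (n + 1)) A) (m : ℕ),
      (∀ v ∈ (Z : Set (Fin (n + 1) → K)), map A.subtype G ∈ mI v ^ m) →
      ∀ w ∈ (Z' : Set (Fin (n + 1) → k)), map ψ G ∈ mI w ^ m := by
    intro G m hG w hw
    obtain ⟨v, -, rfl⟩ := Finset.mem_image.1 (Finset.mem_coe.1 hw)
    exact mult_red A ψ G (fun i => ⟨v.1 i, m2 v.1 v.2 i⟩) m (hG v.1 v.2)
  choose FA hFA using fun j => exists_lift A (F j) (m3 j)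
  refine dimBound_charP k p n a σ ν τ Z' ?_ ha ?_ ?_ (fun j => map ψ (FA j)) ?_ ?_
  · obtain ⟨v, hv⟩ := hZ
    exact ⟨_, hZ'mem v hv⟩
  · exact low_red n 1 a Z A ψ lam hlam m1 m2 _ (fun v hv => hZ'mem v hv)
  · intro ν'
    obtain ⟨Y, hY0, hYh, hYv⟩ := hH ν'
    obtain ⟨m₁, hm₁⟩ := support_nonempty.2 hY0
    obtain ⟨x₀, hx₀, hx₀0, hxA⟩ := hval (Y.support.image fun m => coeff m Y)
      ⟨_, Finset.mem_image_of_mem _ hm₁, mem_support_iff.1 hm₁⟩
    obtain ⟨m₀, -, rfl⟩ := Finset.mem_image.1 hx₀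
    obtain ⟨YA, hYA⟩ := exists_lift A (C (coeff m₀ Y)⁻¹ * Y) (by
      intro m
      rw [coeff_C_mul]
      by_cases hm : m ∈ Y.support
      · exact hxA _ (Finset.mem_image_of_mem _ hm)
      · rw [notMem_support_iff.1 hm, mul_zero]
        exact A.zero_mem)
    refine ⟨map ψ YA, ?_, homog_red A ψ YA _ ?_, hred YA _ ?_⟩
    · intro h0
      have h1 := congrArg (coeff m₀) h0
      have h2 := congrArg (coeff m₀) hYA
      rw [coeff_map, coeff_C_mul, inv_mul_cancel₀ hx₀0] at h2
      have h3 : coeff m₀ YA = 1 := Subtype.ext h2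
      rw [coeff_map, h3, map_one, coeff_zero] at h1
      exact one_ne_zero h1
    · rw [hYA]
      have := (isHomogeneous_C (Fin (n + 1)) (coeff m₀ Y)⁻¹).mul hYh
      rwa [zero_add] at this
    · intro v hv
      rw [hYA]
      exact Ideal.mul_mem_left _ _ (hYv v hv)
  · intro j
    obtain ⟨h1, h2⟩ := (mem_forms _ _ _ _).1 (hF j)
    rw [mem_forms]
    refine ⟨homog_red A ψ _ _ (by rw [hFA]; exact h1), hred _ _ (by rw [hFA]; exact h2)⟩
  · rw [Fintype.linearIndependent_iff]
    intro g hg j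
    have key : ∀ j', ∑ m ∈ M.attach, ψ ⟨l j m.1, m4 j m.1 m.2⟩ * coeff m.1 (map ψ (FA j')) =
        if j = j' then 1 else 0 := by
      intro j'
      have hA' : ∑ m ∈ M.attach, (⟨l j m.1, m4 j m.1 m.2⟩ : A) * coeff m.1 (FA j') =
          if j = j' then 1 else 0 := by
        apply Subtype.ext
        have e1 : ((if j = j' then 1 else 0 : A) : K) = if j = j' then 1 else 0 := by
          split_ifs <;> rfl
        rw [e1, ← hl j j', ← Finset.sum_attach M]
        push_cast
        refine Finset.sum_congr rfl fun m _ => ?_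
        rw [← hFA j', coeff_map]
        rfl
      have h3 := congrArg ψ hA'
      rw [map_sum] at h3
      have e2 : ψ (if j = j' then 1 else 0) = if j = j' then 1 else 0 := by
        split_ifs
        · exact map_one ψ
        · exact map_zero ψ
      rw [e2] at h3
      rw [← h3]
      refine Finset.sum_congr rfl fun m _ => ?_
      rw [map_mul, coeff_map]
    have h1 : ∑ m ∈ M.attach, ψ ⟨l j m.1, m4 j m.1 m.2⟩ * coeff m.1 (∑ j', g j' • map ψ (FA j')) =
        g j := by
      have h2 : ∀ m ∈ M.attach, ψ ⟨l j m.1, m4 j m.1 m.2⟩ * coeff m.1 (∑ j', g j' • map ψ (FA j')) =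
          ∑ j', g j' * (ψ ⟨l j m.1, m4 j m.1 m.2⟩ * coeff m.1 (map ψ (FA j'))) := by
        intro m _
        rw [coeff_sum, Finset.mul_sum]
        refine Finset.sum_congr rfl fun j' _ => ?_
        rw [coeff_smul, smul_eq_mul]
        ring
      rw [Finset.sum_congr rfl h2, Finset.sum_comm]
      simp only [← Finset.mul_sum, key]
      simp
    rw [← h1, hg]
    simp

theorem dimBound (k : Type u) [Field k] [IsAlgClosed k] : DimBound k := by
  obtain ⟨p, hp⟩ := CharP.exists k
  rcases CharP.char_is_prime_or_zero k p with hpp | h0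
  · haveI : Fact p.Prime := ⟨hpp⟩
    exact dimBound_charP k p
  · subst h0
    haveI : CharZero k := CharP.charP_to_charZero k
    exact dimBound_charZero k

end Pool.Agent.H960Z
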