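import Pool.Agent.H960Z.Fac
import Pool.Agent.H960Z.Spec

/-!
Equality in Chudnovsky's bound for the Waldschmidt constant.
-/

set_option autoImplicit false

universe u

namespace Pool.Agent.H960Z

open MvPolynomial Filter Topology Pool.Agent.Chud Pool.Agent.H580C

theorem limit_equality {k : Type u} [Field k] [IsAlgClosed k] {N : ℕ} (hN : 1 ≤ N)
    (S : Finset (PP k N))
    (h : Tendsto (fun m : ℕ => (aS S m : ℝ) / m) atTop (𝓝 (((aS S 1 : ℝ) + N - 1) / N))) :
    InHyperplane S ∨ IsStar S := by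
  classical
  rcases Nat.lt_or_ge 1 (aS S 1) with ha | ha
  swap
  · exact Or.inl (t_A1 t_AS k N S hN ha)
  set a := aS S 1 with ha_def
  obtain ⟨-, hlow⟩ := t_AS k N 1 S hN
  rw [← ha_def] at hlow
  have hS : S.Nonempty := nonempty_of_low (by omega) hlow
  have hN0 : (0 : ℝ) < N := by exact_mod_cast hN
  -- forms of bounded slack
  have hbound : ∀ t, 1 ≤ t → N * (aS S t + N - 1) ≤ (a - 1 + N) * (t + N - 1) := by
    intro t ht
    have hT : (0 : ℝ) < ((t + N - 1 : ℕ) : ℝ) := by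
      have : 0 < t + N - 1 := by omega
      exact_mod_cast this
    have h1 : ((aS S t + N - 1 : ℕ) : ℝ) / ((t + N - 1 : ℕ) : ℝ) ≤ ((a : ℝ) + N - 1) / N := by
      refine ge_of_tendsto h ?_
      filter_upwards [eventually_ge_atTop 1] with m hm
      have hm0 : (0 : ℝ) < m := by exact_mod_cast hm
      have h2 := demailly hN S hS t m ht
      rw [div_le_div_iff₀ hT hm0, mul_comm]
      exact_mod_cast h2
    rw [div_le_div_iff₀ hT hN0] at h1
    have h3 : ((N * (aS S t + N - 1) : ℕ) : ℝ) ≤ (((a - 1 + N) * (t + N - 1) : ℕ) : ℝ) := by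
      rw [Nat.cast_mul, Nat.cast_mul, Nat.cast_add (a - 1), Nat.cast_sub (by omega : 1 ≤ a)]
      push_cast
      linarith
    exact_mod_cast h3
  let Z : Finset (Fin (N + 1) → k) := S.image (fun p => p.rep)
  have hZ : (Z : Set (Fin (N + 1) → k)) = reps S := by
    ext v
    simp only [Z, Finset.coe_image, Set.mem_image, Finset.mem_coe, reps, Set.mem_setOf_eq]
    exact ⟨fun ⟨p, hp, h⟩ => ⟨p, hp, h.symm⟩, fun ⟨p, hp, h⟩ => ⟨p, hp, h.symm⟩⟩
  have hH : ∀ ν, Has (Z : Set (Fin (N + 1) → k)) ((a - 1 + N) * ν + (a - 1 + N)) (N * ν) := by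
    intro ν
    obtain ⟨⟨F, hF0, hFh, hFv⟩, -⟩ := t_AS k N (N * ν + 1) S hN
    have h1 := hbound (N * ν + 1) (by omega)
    have h2 : aS S (N * ν + 1) ≤ (a - 1 + N) * ν + (a - 1 + N) := by
      have e1 : N * ν + 1 + N - 1 = N * (ν + 1) := by
        rw [mul_add, mul_one]
        omega
      rw [e1, mul_left_comm] at h1
      have h3 := Nat.le_of_mul_le_mul_left h1 hN
      rw [mul_add, mul_one] at h3
      omega
    refine ⟨X 0 ^ ((a - 1 + N) * ν + (a - 1 + N) - aS S (N * ν + 1)) * F,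
      mul_ne_zero (pow_ne_zero _ (X_ne_zero _)) hF0, ?_, ?_⟩
    · have := (isHomogeneous_X_pow (R := k) (0 : Fin (N + 1))
        ((a - 1 + N) * ν + (a - 1 + N) - aS S (N * ν + 1))).mul hFh
      rwa [Nat.sub_add_cancel h2] at this
    · intro v hv
      rw [hZ] at hv
      obtain ⟨p, hp, rfl⟩ := hv
      exact Ideal.mul_mem_left _ _ (Ideal.pow_le_pow_right (Nat.le_succ _) (hFv p hp))
  obtain ⟨ν, hν, G, hG0, hGh, hGv⟩ := extremal (dimBound k) N a (a - 1 + N) hN Z (hS.image _) ha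
    (by rw [hZ]; exact hlow) hH
  obtain ⟨-, hlow'⟩ := t_AS k N (N * ν) S hN
  have h1 : aS S (N * ν) ≤ (a - 1 + N) * ν := hlow' G _ hG0 hGh (by rw [← hZ]; exact hGv)
  have h2 := demailly hN S hS 1 (N * ν) le_rfl
  rw [← ha_def, Nat.add_sub_cancel_left] at h2
  have h3 : (a - 1 + N) * ν ≤ aS S (N * ν) := by
    have e1 : a + N - 1 = a - 1 + N := by omega
    rw [e1, mul_assoc, mul_comm (aS S (N * ν)) N] at h2
    have := Nat.le_of_mul_le_mul_left h2 hN
    rwa [mul_comm] at this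
  refine equality hN S (N * ν) (Nat.mul_pos hN hν) ?_
  rw [le_antisymm h1 h3, ← ha_def]
  have hν0 : (0 : ℝ) < ν := by exact_mod_cast hν
  rw [Nat.cast_mul, Nat.cast_mul, Nat.cast_add (a - 1), Nat.cast_sub (by omega : 1 ≤ a)]
  push_cast
  field_simp
  ring

end Pool.Agent.H960Z
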